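import Pool.Agent.Run7.h675.SV.Main

set_option autoImplicit false

open Pool.Agent.W689.Mk Run7.h675 Run7.h675.SV

namespace Pool.Agent.Results.MP_f22a19_gt.DiscompacityOne

/-- the standard simplex of dimension `k` -/
abbrev Simplex (k : ℕ) : Type := stdSimplex ℝ (Fin (k + 1))

/-- real singular chains of degree `k` of the space `M` -/
abbrev Chain (k : ℕ) (M : Type) [TopologicalSpace M] : Type := C(Simplex k, M) →₀ ℝ

/-- the inclusion of the face opposite to the vertex `i` -/
noncomputable def face {k : ℕ} (i : Fin (k + 2)) : C(Simplex k, Simplex (k + 1)) :=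
  ⟨stdSimplex.map i.succAbove, stdSimplex.continuous_map _⟩

/-- the boundary of singular chains -/
noncomputable def bdry {M : Type} [TopologicalSpace M] (k : ℕ) : Chain (k + 1) M →ₗ[ℝ] Chain k M :=
  Finsupp.linearCombination ℝ fun σ =>
    ∑ i : Fin (k + 2), ((-1 : ℝ) ^ (i : ℕ)) • Finsupp.single (σ.comp (face i)) 1

/-- the `ℓ¹`-norm of a singular chain: the sum of the absolute values of its coefficients -/
noncomputable def norm1 {M : Type} [TopologicalSpace M] {k : ℕ} (c : Chain k M) : ℝ :=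
  ∑ σ ∈ c.support, |c σ|

/-- The `ℓ¹`-seminorm of the homology class of a cycle `z`: the infimum of the norms of the
homologous cycles. For a fundamental cycle of a closed oriented manifold this is the simplicial
volume. -/
noncomputable def seminorm1 {k : ℕ} {M : Type} [TopologicalSpace M] (z : Chain (k + 1) M) : ℝ :=
  ⨅ c : Chain (k + 2) M, norm1 (z + bdry (k + 1) c)

/-- the closed manifold `X / Γ` -/
abbrev Quot (X Γ : Type) [Group Γ] [MulAction Γ X] : Type := MulAction.orbitRel.Quotient Γ X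

/-- All real homology classes of `X / Γ` of degree at least `d`, and of positive degree, have
`ℓ¹`-seminorm zero. -/
def ZeroFrom (X Γ : Type) [TopologicalSpace X] [Group Γ] [MulAction Γ X] (d : ℕ) : Prop :=
  ∀ k : ℕ, d ≤ k + 1 → ∀ z : Chain (k + 1) (Quot X Γ), bdry k z = 0 → seminorm1 z = 0

/-- `Γ` has a solvable subgroup of finite index. -/
def VirtuallySolvable (Γ : Type) [Group Γ] : Prop :=
  ∃ A : Subgroup Γ, A.FiniteIndex ∧ Group.IsSolvable A

section
variable {Γ E : Type} [Group Γ] [NormedAddCommGroup E] [NormedSpace ℝ E]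

/-- The subspace `S` is invariant under the linear parts of the holonomy of the subgroup `H`. -/
def Invariant (hol : Γ →* (E ≃ᵃ[ℝ] E)) (H : Subgroup Γ) (S : Submodule ℝ E) : Prop :=
  ∀ γ ∈ H, ∀ v ∈ S, (hol γ).linear v ∈ S

/-- The linear holonomy of `H` is uniformly bounded on the quotient `T / S`: the class of the image
of `v` has a representative of norm at most `C * ‖v‖`. -/
def BoundedOn (hol : Γ →* (E ≃ᵃ[ℝ] E)) (H : Subgroup Γ) (S T : Submodule ℝ E) : Prop :=
  ∃ C : ℝ, ∀ γ ∈ H, ∀ v ∈ T, ∃ w ∈ T, ‖w‖ ≤ C * ‖v‖ ∧ (hol γ).linear v - w ∈ S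

/-- There is a flag `W = S 0 ⊆ S 1 ⊆ … ⊆ S m = E` of subspaces which are invariant under the linear
holonomy of `H`, which is uniformly bounded on each quotient `S (i + 1) / S i`. -/
def BoundedAbove (hol : Γ →* (E ≃ᵃ[ℝ] E)) (H : Subgroup Γ) (W : Submodule ℝ E) : Prop :=
  ∃ (S : ℕ → Submodule ℝ E) (m : ℕ), S 0 = W ∧ S m = ⊤ ∧ (∀ i < m, S i ≤ S (i + 1)) ∧
    (∀ i ≤ m, Invariant hol H (S i)) ∧ ∀ i < m, BoundedOn hol H (S i) (S (i + 1))

/-- `H` acts on `E / W` through a solvable group: some derived subgroup of `H` acts trivially. -/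
def SolvableAbove (hol : Γ →* (E ≃ᵃ[ℝ] E)) (H : Subgroup Γ) (W : Submodule ℝ E) : Prop :=
  ∃ a : ℕ, ∀ γ ∈ derivedSeries H a, ∀ v : E, (hol γ).linear v - v ∈ W

/-- Discompacity at most one on `W`: every element of the linear holonomy of `H` is Lipschitz, with
a uniform constant `C`, on the kernel in `W` of some linear form. -/
def Discompacity (hol : Γ →* (E ≃ᵃ[ℝ] E)) (H : Subgroup Γ) (W : Submodule ℝ E) : Prop :=
  ∃ C : ℝ, ∀ γ ∈ H, ∃ l : E →L[ℝ] ℝ, ∀ v ∈ W, l v = 0 → ‖(hol γ).linear v‖ ≤ C * ‖v‖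

/-- There is a symmetric bilinear form of Lorentz signature on `W`, which is invariant under the
linear holonomy of `H`. -/
def Lorentz (hol : Γ →* (E ≃ᵃ[ℝ] E)) (H : Subgroup Γ) (W : Submodule ℝ E) : Prop :=
  ∃ B : E →L[ℝ] E →L[ℝ] ℝ, (∀ v ∈ W, ∀ w ∈ W, B v w = B w v) ∧
    (∃ e ∈ W, B e e < 0 ∧ ∀ v ∈ W, v ≠ 0 → B v e = 0 → 0 < B v v) ∧
    ∀ γ ∈ H, ∀ v ∈ W, ∀ w ∈ W, B ((hol γ).linear v) ((hol γ).linear w) = B v w

/-- The linear holonomy of `H` preserves a flag `0 = S 0 ⊆ S 1 ⊆ … ⊆ S m = E` and acts on its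
quotients by uniformly quasi-conformal maps: with one constant `C`, every `γ` in `H` multiplies the
quotient norm of `S (i + 1) / S i` by a factor `c > 0`, up to the constant `C`. (This is so for all
subgroups of amenable Lie groups, up to finite index.) -/
def ConformalFlag (hol : Γ →* (E ≃ᵃ[ℝ] E)) (H : Subgroup Γ) : Prop :=
  ∃ (S : ℕ → Submodule ℝ E) (m : ℕ), S 0 = ⊥ ∧ S m = ⊤ ∧ (∀ i < m, S i ≤ S (i + 1)) ∧
    (∀ i ≤ m, ∀ γ ∈ H, ∀ v ∈ S i, (hol γ).linear v ∈ S i) ∧
    ∃ C : ℝ, ∀ i < m, ∀ γ ∈ H, ∃ c : ℝ, 0 < c ∧ ∀ v ∈ S (i + 1),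
      (∃ w ∈ S i, ‖(hol γ).linear v - w‖ ≤ C * c * ‖v‖) ∧
      ∃ w ∈ S i, ‖(hol γ⁻¹).linear v - w‖ ≤ C * c⁻¹ * ‖v‖

/-- `0 = S 0 ⊆ S 1 ⊆ … ⊆ S m = E` is a flag which is invariant under the linear parts of the
holonomy of the subgroup `H`. -/
def InvariantFlag (hol : Γ →* (E ≃ᵃ[ℝ] E)) (H : Subgroup Γ) (S : ℕ → Submodule ℝ E) (m : ℕ) :
    Prop :=
  S 0 = ⊥ ∧ S m = ⊤ ∧ (∀ i < m, S i ≤ S (i + 1)) ∧
    ∀ i ≤ m, ∀ γ ∈ H, ∀ v ∈ S i, (hol γ).linear v ∈ S i

/-- The linear holonomy of every element of `H` is `1` or `-1` on the quotient `B / A`. -/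
def SignOn (hol : Γ →* (E ≃ᵃ[ℝ] E)) (H : Subgroup Γ) (A B : Submodule ℝ E) : Prop :=
  ∀ γ ∈ H, (∀ v ∈ B, (hol γ).linear v - v ∈ A) ∨ (∀ v ∈ B, (hol γ).linear v + v ∈ A)

/-- The images of the covector `f` under the linear holonomy of `H`, restricted to `B`, have norms
bounded from below. -/
def AwayFromZero (hol : Γ →* (E ≃ᵃ[ℝ] E)) (H : Subgroup Γ) (B : Submodule ℝ E) (f : E →L[ℝ] ℝ) :
    Prop :=
  ∃ δ : ℝ, 0 < δ ∧ ∀ γ ∈ H, ∃ v ∈ B, ‖v‖ ≤ 1 ∧ δ ≤ |f ((hol γ).linear v)|

/-- The covectors which vanish on `A` and whose images stay away from zero on `B` are dense among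
all covectors which vanish on `A`. -/
def DenselyAway (hol : Γ →* (E ≃ᵃ[ℝ] E)) (H : Subgroup Γ) (A B : Submodule ℝ E) : Prop :=
  ∀ f : E →L[ℝ] ℝ, (∀ v ∈ A, f v = 0) → ∀ ε : ℝ, 0 < ε →
    ∃ g : E →L[ℝ] ℝ, (∀ v ∈ A, g v = 0) ∧ AwayFromZero hol H B g ∧ ‖g - f‖ < ε

end

section
variable {E ι : Type} [NormedAddCommGroup E] [NormedSpace ℝ E]

/-- `v` is a vector of the lattice spanned by the basis `b`. -/
def InLattice (b : Module.Basis ι ℝ E) (v : E) : Prop := ∀ i, ∃ z : ℤ, b.repr v i = z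

/-- `S` is a rational subspace: it is spanned by vectors of the lattice. -/
def Rational (b : Module.Basis ι ℝ E) (S : Submodule ℝ E) : Prop :=
  Submodule.span ℝ {v | InLattice b v ∧ v ∈ S} = S

end

/-- Let a closed affine manifold `M = X / Γ` with parallel volume be given by a connected cover `X`
with its group `Γ`, acting freely, developing map `dev` and holonomy `hol`, and let `H` be a
subgroup of finite index of `Γ`. The developing map is not assumed to be injective; all hypotheses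
concern the linear holonomy of `H` only.

(1) Let `W` be a subspace which starts a flag of subspaces invariant under the linear holonomy of
`H`, up to `E`, on whose quotients this linear holonomy is bounded, and let `H` act on `E / W`
through a solvable group. If `W` has dimension two then the structure is complete, the group `Γ` is
virtually solvable, and the `ℓ¹`-seminorm of all real homology classes of `M` of positive degree is
zero. If `W` has an invariant form of Lorentz signature then the structure is complete, and the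
`ℓ¹`-seminorm of all real homology classes of `M` of degree at least `dim M` is zero.

(2) Let `W` be as in (1), without the condition of solvability. If the linear holonomy of `H` has
discompacity at most one on `W` (this is automatic if `W` has dimension two or an invariant Lorentz
form) and preserves some flag with quasi-conformal quotients, then the conclusions of (1) for planes
hold.

(3) The structure is complete and the `ℓ¹`-seminorm of all real homology classes of `M` of degree at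
least `dim M` is zero if the linear holonomy of `H` preserves a flag and is `± 1` on its quotients,
except for one quotient of dimension two on which the covectors with images bounded away from zero
are dense; (4) or if it preserves a lattice of `E` and a flag of rational subspaces, with quotients
of dimension at most one, except for one of dimension at most two.

In all cases the simplicial volume of `M` is zero. -/
theorem result (X Γ E : Type) [NormedAddCommGroup E] [NormedSpace ℝ E]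
    [FiniteDimensional ℝ E] [TopologicalSpace X] [T2Space X] [SecondCountableTopology X]
    [ConnectedSpace X] [Group Γ] [MulAction Γ X] (dev : X → E) (hol : Γ →* (E ≃ᵃ[ℝ] E))
    (D : AffData X Γ E dev hol) (hfree : ∀ (γ : Γ) (x : X), γ • x = x → γ = 1)
    (H : Subgroup Γ) (hH : H.FiniteIndex) :
    (∀ W : Submodule ℝ E, BoundedAbove hol H W → SolvableAbove hol H W →
      (Module.finrank ℝ W = 2 → IsHomeomorph dev ∧ VirtuallySolvable Γ ∧ ZeroFrom X Γ 0) ∧
      (Lorentz hol H W → IsHomeomorph dev ∧ ZeroFrom X Γ (Module.finrank ℝ E))) ∧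
    (∀ W : Submodule ℝ E, BoundedAbove hol H W →
      (Discompacity hol H W ∨ Module.finrank ℝ W = 2 ∨ Lorentz hol H W) → ConformalFlag hol H →
      IsHomeomorph dev ∧ VirtuallySolvable Γ ∧ ZeroFrom X Γ 0) ∧
    (∀ (S : ℕ → Submodule ℝ E) (m k : ℕ), InvariantFlag hol H S m → k < m →
      (∀ i < m, i ≠ k → SignOn hol H (S i) (S (i + 1))) →
      Module.finrank ℝ (S (k + 1)) = Module.finrank ℝ (S k) + 2 →
      DenselyAway hol H (S k) (S (k + 1)) →
      IsHomeomorph dev ∧ ZeroFrom X Γ (Module.finrank ℝ E)) ∧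
    (∀ (ι : Type) [Fintype ι] (b : Module.Basis ι ℝ E) (S : ℕ → Submodule ℝ E) (m k : ℕ),
      (∀ γ ∈ H, ∀ v, InLattice b v → InLattice b ((hol γ).linear v)) →
      InvariantFlag hol H S m → (∀ i ≤ m, Rational b (S i)) →
      (∀ i < m, i ≠ k → Module.finrank ℝ (S (i + 1)) ≤ Module.finrank ℝ (S i) + 1) →
      Module.finrank ℝ (S (k + 1)) ≤ Module.finrank ℝ (S k) + 2 →
      IsHomeomorph dev ∧ ZeroFrom X Γ (Module.finrank ℝ E)) := by
  have D' := Pool.Agent.Y449.MK.restrict D H hH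
  have hflag : ∀ W : Submodule ℝ E, BoundedAbove hol H W →
      ∃ (S : ℕ → Submodule ℝ E) (m : ℕ), BFlag (hol.comp H.subtype) W S m := by
    rintro W ⟨S, m, h0, hm, hle, hinv, hbd⟩
    refine ⟨S, m, h0, hm, hle, fun i hi γ v hv => hinv i hi γ γ.2 v hv, fun i hi => ?_⟩
    obtain ⟨C, hC⟩ := hbd i hi
    refine ⟨C, fun γ w hw => ?_⟩
    obtain ⟨v, hv, hvn, hvS⟩ := hC (γ⁻¹ : H) (γ⁻¹ : H).2 w hw
    refine ⟨v, hv, hvn, ?_⟩
    have h1 : lin (hol.comp H.subtype) γ (lin (hol.comp H.subtype) γ⁻¹ w - v) ∈ S i :=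
      hinv i hi.le γ γ.2 _ hvS
    rw [lin_sub, lin_apply_inv] at h1
    rw [← neg_sub]
    exact (S i).neg_mem h1
  have hlor : ∀ W : Submodule ℝ E, Lorentz hol H W → ∃ (B : E →L[ℝ] E →L[ℝ] ℝ) (e : E),
      Lor (hol.comp H.subtype) W B e := by
    rintro W ⟨B, hB1, ⟨e, he, hBe, hBp⟩, hB3⟩
    exact ⟨B, e, hB1, he, hBe, hBp, fun γ v hv w hw => hB3 γ γ.2 v hv w hw⟩
  refine ⟨?_, ?_, ?_, ?_⟩
  · intro W hW hs
    obtain ⟨S, m, F⟩ := hflag W hW
    obtain ⟨a, ha⟩ := hs
    refine ⟨fun hr => ?_, fun hL => ?_⟩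
    · obtain ⟨h1, h2, h3⟩ := plane_all D hfree hH F hr ha
      exact ⟨h1, h2, fun k _ z hz => h3 k z hz⟩
    · obtain ⟨B, e, L⟩ := hlor W hL
      obtain ⟨h1, h2⟩ := lor_all D hfree hH F L ha
      exact ⟨h1, fun k hk z hz => (h2 k hk).seminorm1_eq_zero z hz⟩
  · rintro W hW hor ⟨S', m', hS'⟩
    obtain ⟨S, m, F⟩ := hflag W hW
    have hd : Disc1 (hol.comp H.subtype) W := by
      rcases hor with ⟨C, hC⟩ | h | h
      · exact ⟨C, fun γ => hC γ γ.2⟩
      · exact disc_plane h F.invW (F.dt D')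
      · obtain ⟨B, e, L⟩ := hlor W h
        exact L.disc F.invW
    have hinj : Function.Injective dev := leaf_injective D' hd (F.con D')
    obtain ⟨h1, h2, h3⟩ := conf_all D hfree hinj hH hS'
    exact ⟨h1, h2, fun k _ z hz => h3 k z hz⟩
  · intro S m k hS hk hsign hrank hdense
    obtain ⟨h0, hm, hle, hinv⟩ := hS
    have Q : QFlag (hol.comp H.subtype) S m k := by
      refine ⟨h0, hm, hk, hle, fun i hi γ v hv => hinv i hi γ γ.2 v hv, ?_, hrank, ?_⟩
      · intro i hi hik γ
        rcases hsign i hi hik γ γ.2 with h | h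
        · exact ⟨1, Or.inl rfl, fun v hv => by rw [one_smul]; exact h v hv⟩
        · refine ⟨-1, Or.inr rfl, fun v hv => ?_⟩
          rw [neg_one_smul, sub_neg_eq_add]
          exact h v hv
      · intro f hf ε hε
        obtain ⟨g, hg, ⟨δ, hδ, hgδ⟩, hgf⟩ := hdense f hf ε hε
        refine ⟨g, hg, ⟨1 / δ, fun γ => ?_⟩, hgf⟩
        obtain ⟨v, hv, hv1, hvδ⟩ := hgδ γ γ.2
        have hne : g ((hol γ).linear v) ≠ 0 := by
          intro h0
          rw [h0, abs_zero] at hvδ
          linarith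
        refine ⟨(g ((hol γ).linear v))⁻¹ • v, ?_, ?_, ?_⟩
        · rw [norm_smul, norm_inv, Real.norm_eq_abs, one_div]
          have h1 : |g ((hol γ).linear v)|⁻¹ ≤ δ⁻¹ := inv_anti₀ hδ hvδ
          calc |g ((hol γ).linear v)|⁻¹ * ‖v‖ ≤ δ⁻¹ * 1 :=
                mul_le_mul h1 hv1 (norm_nonneg _) (inv_nonneg.2 hδ.le)
            _ = δ⁻¹ := mul_one _
        · show (hol γ).linear ((g ((hol γ).linear v))⁻¹ • v) ∈ S (k + 1)
          rw [map_smul]
          exact (S (k + 1)).smul_mem _ (hinv (k + 1) hk γ γ.2 v hv)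
        · show g ((hol γ).linear ((g ((hol γ).linear v))⁻¹ • v)) = 1
          rw [map_smul, map_smul, smul_eq_mul, inv_mul_cancel₀ hne]
    obtain ⟨h1, h2⟩ := qflag_all D hfree hH Q
    exact ⟨h1, fun k hk z hz => (h2 k hk).seminorm1_eq_zero z hz⟩
  · intro ι _ b S m k hint hS hrat hr1 hr2
    obtain ⟨h0, hm, hle, hinv⟩ := hS
    obtain ⟨h1, h2⟩ := rational_all (b := b) D hfree hH (fun γ v hv => hint γ γ.2 v hv) h0 hm hle
      (fun i hi γ v hv => hinv i hi γ γ.2 v hv) (fun i hi => (hrat i hi).ge) hr1 hr2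
    exact ⟨h1, fun k hk z hz => (h2 k hk).seminorm1_eq_zero z hz⟩

end Pool.Agent.Results.MP_f22a19_gt.DiscompacityOne
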