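import Pool.Agent.Run7.h262.SV.Cones
import Pool.Agent.Run7.h262.SV.Neg

set_option autoImplicit false

open Topology

namespace Pool.Agent.Results.MP_f22a19_gt.ProperCones

/-- the standard simplex of dimension `k` -/
abbrev Simplex (k : ℕ) : Type := stdSimplex ℝ (Fin (k + 1))

/-- real singular chains of degree `k` of the space `M` -/
abbrev Chain (k : ℕ) (M : Type) [TopologicalSpace M] : Type := C(Simplex k, M) →₀ ℝ

/-- the inclusion of the face opposite to the vertex `i` -/
noncomputable def face {k : ℕ} (i : Fin (k + 2)) : C(Simplex k, Simplex (k + 1)) :=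
  ⟨stdSimplex.map i.succAbove, stdSimplex.continuous_map _⟩

/-- the boundary of singular chains -/
noncomputable def bdry {M : Type} [TopologicalSpace M] (k : ℕ) : Chain (k + 1) M →ₗ[ℝ] Chain k M :=
  Finsupp.linearCombination ℝ fun σ =>
    ∑ i : Fin (k + 2), ((-1 : ℝ) ^ (i : ℕ)) • Finsupp.single (σ.comp (face i)) 1

/-- the `ℓ¹`-norm of a singular chain: the sum of the absolute values of its coefficients -/
noncomputable def norm1 {M : Type} [TopologicalSpace M] {k : ℕ} (c : Chain k M) : ℝ :=
  ∑ σ ∈ c.support, |c σ|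

/-- The `ℓ¹`-seminorm of the homology class of a cycle `z`: the infimum of the norms of the
homologous cycles. For a fundamental cycle of a closed oriented manifold this is the simplicial
volume. -/
noncomputable def seminorm1 {k : ℕ} {M : Type} [TopologicalSpace M] (z : Chain (k + 1) M) : ℝ :=
  ⨅ c : Chain (k + 2) M, norm1 (z + bdry (k + 1) c)

/-- `Γ \ X` is a closed affine manifold (of dimension `dim E`) with developing map `dev` and
affine holonomy `hol`, and `dev` is injective with convex image: the group `Γ` acts freely, properly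
discontinuously and cocompactly on `X`, and `dev` is an equivariant homeomorphism onto an open
convex subset of `E`. (So `X` is contractible, it is the universal cover, and `Γ` is the fundamental
group. The complete affine manifolds are those for which the image of `dev` is `E`. No parallel
volume is assumed.) -/
structure ConvexAffine (X Γ E : Type) [TopologicalSpace X] [Group Γ] [MulAction Γ X]
    [NormedAddCommGroup E] [NormedSpace ℝ E] (dev : X → E) (hol : Γ →* (E ≃ᵃ[ℝ] E)) : Prop where
  emb : IsOpenEmbedding dev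
  convex : Convex ℝ (Set.range dev)
  equi : ∀ (γ : Γ) (x : X), dev (γ • x) = hol γ (dev x)
  free : ∀ (γ : Γ) (x : X), γ • x = x → γ = 1
  proper : ∀ K : Set X, IsCompact K → {γ : Γ | ∃ x ∈ K, γ • x ∈ K}.Finite
  cocompact : ∃ K : Set X, IsCompact K ∧ ∀ x : X, ∃ γ : Γ, γ • x ∈ K

section
variable {Γ E : Type} [Group Γ] [NormedAddCommGroup E] [NormedSpace ℝ E]

/-- The directions of the lines contained in the convex open set `Ω`: the vectors on which all
linear functionals bounded below on `Ω` vanish. For `Ω = E` this is `E`. -/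
def lines (Ω : Set E) : Submodule ℝ E where
  carrier := {v | ∀ f : E →ₗ[ℝ] ℝ, BddBelow (f '' Ω) → f v = 0}
  add_mem' := by
    intro v w hv hw f hf
    rw [map_add, hv f hf, hw f hf, add_zero]
  zero_mem' := fun f _ => map_zero f
  smul_mem' := by
    intro r v hv f hf
    rw [map_smul, hv f hf, smul_zero]

/-- `Ω` is a cone with vertex `o`, and it is not the whole space -/
def IsCone (Ω : Set E) : Prop :=
  ∃ o, o ∉ Ω ∧ ∀ x ∈ Ω, ∀ t : ℝ, 0 < t → o + t • (x - o) ∈ Ω

/-- `0 = S 0 ⊆ S 1 ⊆ … ⊆ S r = W` is a flag of subspaces preserved by the linear holonomy -/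
structure InvariantFlag (hol : Γ →* (E ≃ᵃ[ℝ] E)) (S : ℕ → Submodule ℝ E) (r : ℕ)
    (W : Submodule ℝ E) : Prop where
  bot : S 0 = ⊥
  top : S r = W
  mono : ∀ i < r, S i ≤ S (i + 1)
  inv : ∀ i ≤ r, ∀ γ : Γ, ∀ v ∈ S i, (hol γ).linear v ∈ S i

/-- `C` is a nonempty open convex cone without the origin, invariant under the linear
representation `σ` of `Γ` -/
structure InvariantCone {q : ℕ} (σ : Γ →* ((Fin q → ℝ) ≃ₗ[ℝ] (Fin q → ℝ)))
    (C : Set (Fin q → ℝ)) : Prop where
  isOpen : IsOpen C
  convex : Convex ℝ C
  nonempty : C.Nonempty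
  zero : (0 : Fin q → ℝ) ∉ C
  smul : ∀ t : ℝ, 0 < t → ∀ u ∈ C, t • u ∈ C
  inv : ∀ γ : Γ, ∀ u ∈ C, σ γ u ∈ C

/-- The linear holonomy of `γ` acts on the quotient `V' / V` as a scalar multiple of a map `g` such
that the norms of `g` and of its inverse are at most `c`. -/
def BoundedOn (hol : Γ →* (E ≃ᵃ[ℝ] E)) (V V' : Submodule ℝ E) (c : ℝ) (γ : Γ) : Prop :=
  ∃ s : ℝ, 0 < s ∧ ∀ v ∈ V', (∃ w ∈ V, ‖s • (hol γ).linear v - w‖ ≤ c * ‖v‖) ∧
    ∃ w ∈ V, ‖s⁻¹ • (hol γ⁻¹).linear v - w‖ ≤ c * ‖v‖

/-- Properness of the action on the product of the projectivised cones `C j`: for compact subsets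
`A j` of the `C j`, the elements `γ` of `Γ` which move, for each `j`, some point of `A j` to a
positive multiple of a point of `A j` are bounded modulo scalars on the quotients of the flag `S`
(that is, their images in the product of the projective linear groups of these quotients are
contained in a compact set). -/
def ProperOnCones (hol : Γ →* (E ≃ᵃ[ℝ] E)) (S : ℕ → Submodule ℝ E) (r : ℕ) {p : ℕ}
    {q : Fin p → ℕ} (σ : ∀ j, Γ →* ((Fin (q j) → ℝ) ≃ₗ[ℝ] (Fin (q j) → ℝ)))
    (C : ∀ j, Set (Fin (q j) → ℝ)) : Prop :=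
  ∀ A : ∀ j, Set (Fin (q j) → ℝ), (∀ j, IsCompact (A j)) → (∀ j, A j ⊆ C j) →
    ∃ c : ℝ, ∀ γ : Γ, (∀ j, ∃ u ∈ A j, ∃ t : ℝ, 0 < t ∧ t • σ j γ u ∈ A j) →
      ∀ i < r, BoundedOn hol (S i) (S (i + 1)) c γ

end

/-- Let `M = Γ \ X` be a closed affine manifold whose developing map is injective with convex image
`Ω`, and let `W` be the space of the directions of the lines in `Ω` (so `W = E` if `M` is complete).
Let `0 = S 0 ⊆ … ⊆ S r = W` be a flag preserved by the linear holonomy. Suppose that `Γ` acts
linearly on real vector spaces of dimensions `q j`, `j < p`, preserving open convex cones `C j`, and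
that its action on the product of the projectivised cones is proper modulo scalars on the quotients
of the flag. If the dimension of this product is less than `dim W` (that is, `∑ (q j - 1) < dim W`),
or if it is at most `dim W` and `Ω` is a cone different from `E`, then the `ℓ¹`-seminorm of every
real homology class of `M` of degree at least `dim M` is zero; in particular the simplicial volume
of `M` is zero.

For instance `C j` can be the cone of the positive definite forms in some space of quadratic forms
on the quotient `S (j + 1) / S j` which is invariant under the linear holonomy. For the spaces of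
all quadratic forms this is the case of a block triangular linear holonomy on `W` with blocks of
sizes `d j`, where `∑ (d j * (d j + 1) / 2 - 1) < dim W`. -/
theorem result (X Γ E : Type) [NormedAddCommGroup E] [NormedSpace ℝ E]
    [FiniteDimensional ℝ E] [TopologicalSpace X] [Nonempty X] [Group Γ] [MulAction Γ X]
    (dev : X → E) (hol : Γ →* (E ≃ᵃ[ℝ] E)) (M : ConvexAffine X Γ E dev hol)
    (S : ℕ → Submodule ℝ E) (r : ℕ) (hS : InvariantFlag hol S r (lines (Set.range dev)))
    (p : ℕ) (q : Fin p → ℕ) (σ : ∀ j, Γ →* ((Fin (q j) → ℝ) ≃ₗ[ℝ] (Fin (q j) → ℝ)))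
    (C : ∀ j, Set (Fin (q j) → ℝ)) (hC : ∀ j, InvariantCone (σ j) (C j))
    (hP : ProperOnCones hol S r σ C)
    (hdim : ∑ j, q j < Module.finrank ℝ (lines (Set.range dev)) + p ∨
      (IsCone (Set.range dev) ∧ ∑ j, q j ≤ Module.finrank ℝ (lines (Set.range dev)) + p))
    (k : ℕ) (hk : Module.finrank ℝ E ≤ k + 1)
    (z : Chain (k + 1) (MulAction.orbitRel.Quotient Γ X)) (hz : bdry k z = 0) :
    seminorm1 z = 0 := by
  refine Run7.h262.SV.neg_inf (Run7.h262.SV.CvxData.of_cones (U := fun j => Fin (q j) → ℝ)
    ⟨M.emb, M.convex, M.equi, M.free, M.proper, M.cocompact⟩ S r hS.bot hS.top hS.mono hS.inv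
    σ C (fun j => ⟨(hC j).isOpen, (hC j).convex, (hC j).nonempty, (hC j).zero, (hC j).smul,
      (hC j).inv⟩) hP ?_ k hk) z hz
  simp only [Module.finrank_fin_fun]
  exact hdim

end Pool.Agent.Results.MP_f22a19_gt.ProperCones
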