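import Pool.Agent.Run7.h262.SV.Disc
import Pool.Agent.Run7.h262.SV.Neg

set_option autoImplicit false

open Topology

namespace Pool.Agent.Results.MP_f22a19_gt.SmallBlocks

/-- the standard simplex of dimension `k` -/
abbrev Simplex (k : ℕ) : Type := stdSimplex ℝ (Fin (k + 1))

/-- real singular chains of degree `k` of the space `M` -/
abbrev Chain (k : ℕ) (M : Type) [TopologicalSpace M] : Type := C(Simplex k, M) →₀ ℝ

/-- the inclusion of the face opposite to the vertex `i` -/
noncomputable def face {k : ℕ} (i : Fin (k + 2)) : C(Simplex k, Simplex (k + 1)) :=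
  ⟨stdSimplex.map i.succAbove, stdSimplex.continuous_map _⟩

/-- the boundary of singular chains -/
noncomputable def bdry {M : Type} [TopologicalSpace M] (k : ℕ) : Chain (k + 1) M →ₗ[ℝ] Chain k M :=
  Finsupp.linearCombination ℝ fun σ =>
    ∑ i : Fin (k + 2), ((-1 : ℝ) ^ (i : ℕ)) • Finsupp.single (σ.comp (face i)) 1

/-- the `ℓ¹`-norm of a singular chain: the sum of the absolute values of its coefficients -/
noncomputable def norm1 {M : Type} [TopologicalSpace M] {k : ℕ} (c : Chain k M) : ℝ :=
  ∑ σ ∈ c.support, |c σ|

/-- The `ℓ¹`-seminorm of the homology class of a cycle `z`: the infimum of the norms of the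
homologous cycles. For a fundamental cycle of a closed oriented manifold this is the simplicial
volume. -/
noncomputable def seminorm1 {k : ℕ} {M : Type} [TopologicalSpace M] (z : Chain (k + 1) M) : ℝ :=
  ⨅ c : Chain (k + 2) M, norm1 (z + bdry (k + 1) c)

/-- `Γ \ X` is a closed affine manifold (of dimension `dim E`) with developing map `dev` and
affine holonomy `hol`, and `dev` is injective with convex image: the group `Γ` acts freely, properly
discontinuously and cocompactly on `X`, and `dev` is an equivariant homeomorphism onto an open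
convex subset of `E`. (So `X` is contractible, it is the universal cover, and `Γ` is the fundamental
group. The complete affine manifolds are those for which the image of `dev` is `E`. No parallel
volume is assumed.) -/
structure ConvexAffine (X Γ E : Type) [TopologicalSpace X] [Group Γ] [MulAction Γ X]
    [NormedAddCommGroup E] [NormedSpace ℝ E] (dev : X → E) (hol : Γ →* (E ≃ᵃ[ℝ] E)) : Prop where
  emb : IsOpenEmbedding dev
  convex : Convex ℝ (Set.range dev)
  equi : ∀ (γ : Γ) (x : X), dev (γ • x) = hol γ (dev x)
  free : ∀ (γ : Γ) (x : X), γ • x = x → γ = 1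
  proper : ∀ K : Set X, IsCompact K → {γ : Γ | ∃ x ∈ K, γ • x ∈ K}.Finite
  cocompact : ∃ K : Set X, IsCompact K ∧ ∀ x : X, ∃ γ : Γ, γ • x ∈ K

section
variable {Γ E : Type} [Group Γ] [NormedAddCommGroup E] [NormedSpace ℝ E]

/-- `0 = S 0 ⊆ S 1 ⊆ … ⊆ S m = E` is a flag of subspaces preserved by the linear holonomy
(for `m = 1` this is the trivial flag, and there is no condition) -/
structure InvariantFlag (hol : Γ →* (E ≃ᵃ[ℝ] E)) (S : ℕ → Submodule ℝ E) (m : ℕ) : Prop where
  bot : S 0 = ⊥
  top : S m = ⊤
  mono : ∀ i < m, S i ≤ S (i + 1)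
  inv : ∀ i ≤ m, ∀ γ : Γ, ∀ v ∈ S i, (hol γ).linear v ∈ S i

/-- The linear holonomy of `γ` acts on each of the quotients `S (i + 1) / S i` as a scalar multiple
of a map at distance at most `δ` from the identity (the distance is measured in the operator norm
of the quotient): `γ` is `δ`-close to the identity in the product of the projective linear groups
of the quotients. -/
def NearScalar (hol : Γ →* (E ≃ᵃ[ℝ] E)) (S : ℕ → Submodule ℝ E) (m : ℕ) (γ : Γ) (δ : ℝ) : Prop :=
  ∃ s : ℕ → ℝ, (∀ i, s i ≠ 0) ∧
    ∀ i < m, ∀ v ∈ S (i + 1), ∃ w ∈ S i, ‖s i • (hol γ).linear v - v - w‖ ≤ δ * ‖v‖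

/-- The homomorphism from `Γ` to the product of the projective linear groups of the quotients
`S (i + 1) / S i` given by the linear holonomy is injective and its image is discrete. -/
def DiscreteFaithful (hol : Γ →* (E ≃ᵃ[ℝ] E)) (S : ℕ → Submodule ℝ E) (m : ℕ) : Prop :=
  ∃ δ > 0, ∀ γ : Γ, NearScalar hol S m γ δ → γ = 1

end

/-- Let `M = Γ \ X` be a closed affine manifold whose developing map is injective with convex
image (for instance a closed complete affine manifold). Suppose that for some flag of subspaces
preserved by the linear holonomy (for instance the trivial flag `0 ⊆ E`), the homomorphism from the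
fundamental group `Γ` to the product of the projective linear groups of the quotients of the flag is
not injective or has a non-discrete image. Then the `ℓ¹`-seminorm of every real homology class of
`M` of degree at least `dim M` is zero; in particular the simplicial volume of `M` is zero. -/
theorem result (X Γ E : Type) [NormedAddCommGroup E] [NormedSpace ℝ E]
    [FiniteDimensional ℝ E] [TopologicalSpace X] [Nonempty X] [Group Γ] [MulAction Γ X]
    (dev : X → E) (hol : Γ →* (E ≃ᵃ[ℝ] E)) (M : ConvexAffine X Γ E dev hol)
    (S : ℕ → Submodule ℝ E) (m : ℕ) (hS : InvariantFlag hol S m)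
    (hd : ¬ DiscreteFaithful hol S m) (k : ℕ) (hk : Module.finrank ℝ E ≤ k + 1)
    (z : Chain (k + 1) (MulAction.orbitRel.Quotient Γ X)) (hz : bdry k z = 0) :
    seminorm1 z = 0 := by
  have hsm : Run7.h262.SV.SmallBlocks hol S m := by
    intro δ hδ
    by_contra hcon
    refine hd ⟨δ, hδ, fun γ hγ => ?_⟩
    by_contra h1
    exact hcon ⟨γ, h1, hγ⟩
  exact Run7.h262.SV.neg_inf (Run7.h262.SV.CvxData.of_small_blocks
    ⟨M.emb, M.convex, M.equi, M.free, M.proper, M.cocompact⟩ S m hS.bot hS.top hS.mono hS.inv
    hsm k hk) z hz

end Pool.Agent.Results.MP_f22a19_gt.SmallBlocks
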